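import Pool.Agent.MWGR.StmtsC

/-!
# Block MWGR, row JMA: a non-first letter is moved to the right over multiple letters
-/

set_option autoImplicit false

namespace Pool.Agent.MWGR.H63

open Pool.Agent.Helper14_MV Pool.Agent.Helper2_MV Pool.Agent.MVO Pool.Agent.MWL Pool.Agent.MWS
  Pool.Agent.MWH Pool.Agent.MWGR

theorem flatMap_rep (g : ℕ → List ℕ) (m c x : ℕ) (h : g c = [x]) :
    (List.replicate m c).flatMap g = List.replicate m x := by
  induction m with
  | zero => rfl
  | succ m ih => rw [List.replicate_succ, List.flatMap_cons, ih, h, List.replicate_succ]; rfl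

/-- multiplication of a non-first letter -/
theorem gp1 (hG : MWGP.GapStmt) {n : ℕ} {η : FIC} (hB : BG n (RR η)) (p q : List ℕ) (x : ℕ)
    (hx : x ∈ p) : RR η (p ++ x :: q) (p ++ x :: (List.replicate n x ++ q)) := by
  have h := (hG n η hB.ga hB.rn p q x x hx).1
  have e : p ++ x :: (List.replicate n x ++ q) = p ++ (List.replicate (n + 1) x ++ q) := by
    rw [List.replicate_succ]; simp
  rw [e]
  exact h

/-- a power is moved over a non-first letter -/
theorem mvp (hG : MWGP.GapStmt) {n : ℕ} {η : FIC} (hB : BG n (RR η)) (a c : ℕ) (m : ℕ) :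
    ∀ (p s : List ℕ), a ∈ p → c ∈ p →
      RR η (p ++ (List.replicate m a ++ c :: s)) (p ++ c :: (List.replicate m a ++ s)) := by
  induction m with
  | zero => intro p s _ _; exact RR.refl _
  | succ m ih =>
    intro p s ha hc
    have h1 := ih (p ++ [a]) s (List.mem_append_left _ ha) (List.mem_append_left _ hc)
    have h2 := (hG n η hB.ga hB.rn p (List.replicate m a ++ s) a c ha).2 hc
    have e1 : p ++ [a] ++ (List.replicate m a ++ c :: s) =
        p ++ (List.replicate (m + 1) a ++ c :: s) := by
      rw [List.replicate_succ]; simp
    have e2 : p ++ [a] ++ c :: (List.replicate m a ++ s) =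
        p ++ a :: c :: (List.replicate m a ++ s) := by simp
    have e3 : p ++ c :: a :: (List.replicate m a ++ s) =
        p ++ c :: (List.replicate (m + 1) a ++ s) := by
      rw [List.replicate_succ]; simp
    rw [e1, e2] at h1
    rw [e3] at h2
    exact η.trans h1 h2

/-- the step -/
theorem step (hG : MWGP.GapStmt) {n : ℕ} {η : FIC} (hB : BG n (RR η)) (hA : Al0 n (RR η))
    (p s : List ℕ) (a c : ℕ) (ha : a ∈ p) (hc : 2 ≤ (p ++ a :: c :: s).count c) :
    RR η (p ++ a :: c :: s) (p ++ a :: c :: (List.replicate n a ++ s)) := by
  by_cases hca : c = a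
  · subst hca
    have h := gp1 hG hB (p ++ [c]) s c (List.mem_append_left _ ha)
    simpa only [List.append_assoc, List.singleton_append] using h
  · by_cases hcp : c ∈ p
    · have h1 := gp1 hG hB p (c :: s) a ha
      have h2 := mvp hG hB a c n (p ++ [a]) s (List.mem_append_left _ ha)
        (List.mem_append_left _ hcp)
      have e1 : p ++ [a] ++ (List.replicate n a ++ c :: s) =
          p ++ a :: (List.replicate n a ++ c :: s) := by simp
      have e2 : p ++ [a] ++ c :: (List.replicate n a ++ s) =
          p ++ a :: c :: (List.replicate n a ++ s) := by simp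
      rw [e1, e2] at h2
      exact η.trans h1 h2
    · have hcs : c ∈ s := by
        by_contra hcs
        have hac : a ≠ c := fun h => hca h.symm
        rw [List.count_append, List.count_cons_of_ne hac, List.count_cons_self,
          List.count_eq_zero_of_not_mem hcp, List.count_eq_zero_of_not_mem hcs] at hc
        omega
      obtain ⟨s1, s2, rfl⟩ := List.append_of_mem hcs
      obtain ⟨k, rfl⟩ : ∃ k, n = k + 1 := ⟨n - 1, by have := hB.pos; omega⟩
      have h1 := gp1 hG hB p (c :: (s1 ++ c :: s2)) a ha
      have h3 := gp1 hG hB p (c :: (List.replicate (k + 1) a ++ (s1 ++ c :: s2))) a ha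
      have h0 : RR η [0, 0, 1, 2, 1] ([0, 0, 1] ++ (X (k + 1) ++ [2, 1])) := hA
      have h4 := RR.sub (fun i => if i = 0 then [a] else if i = 1 then [c] else s1) h0
      have e1 : ([0, 0, 1, 2, 1] : List ℕ).flatMap
          (fun i => if i = 0 then [a] else if i = 1 then [c] else s1) =
          a :: a :: c :: (s1 ++ [c]) := by simp
      have e2 : ([0, 0, 1] ++ (X (k + 1) ++ [2, 1]) : List ℕ).flatMap
          (fun i => if i = 0 then [a] else if i = 1 then [c] else s1) =
          a :: a :: c :: (List.replicate (k + 1) a ++ (s1 ++ [c])) := by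
        rw [List.flatMap_append, List.flatMap_append, flatMap_rep _ _ 0 a (by simp)]
        simp
      rw [e1, e2] at h4
      have h5 := ((RR.refl (β := η) (p ++ List.replicate k a)).append h4).append
        (RR.refl (β := η) s2)
      have e3 : p ++ List.replicate k a ++ a :: a :: c :: (s1 ++ [c]) ++ s2 =
          p ++ a :: (List.replicate (k + 1) a ++ c :: (s1 ++ c :: s2)) := by
        have e : List.replicate k a ++ a :: a :: c :: (s1 ++ ([c] ++ s2)) =
            a :: (List.replicate (k + 1) a ++ c :: (s1 ++ c :: s2)) := by
          rw [show a :: a :: c :: (s1 ++ ([c] ++ s2)) = [a] ++ ([a] ++ c :: (s1 ++ c :: s2)) by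
            simp, ← List.append_assoc, ← List.replicate_succ', List.replicate_succ]
          rw [List.cons_append, ← List.append_assoc, ← List.replicate_succ']
          rfl
        rw [← e]
        simp
      have e4 : p ++ List.replicate k a ++ a :: a :: c :: (List.replicate (k + 1) a ++
          (s1 ++ [c])) ++ s2 =
          p ++ a :: (List.replicate (k + 1) a ++
            c :: (List.replicate (k + 1) a ++ (s1 ++ c :: s2))) := by
        have e : List.replicate k a ++ a :: a :: c :: (List.replicate (k + 1) a ++
            (s1 ++ ([c] ++ s2))) =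
            a :: (List.replicate (k + 1) a ++ c :: (List.replicate (k + 1) a ++
              (s1 ++ c :: s2))) := by
          rw [show a :: a :: c :: (List.replicate (k + 1) a ++ (s1 ++ ([c] ++ s2))) =
            [a] ++ ([a] ++ c :: (List.replicate (k + 1) a ++ (s1 ++ c :: s2))) by
            simp, ← List.append_assoc, ← List.replicate_succ', List.replicate_succ]
          rw [List.cons_append, ← List.append_assoc, ← List.replicate_succ']
          rfl
        rw [← e]
        simp
      rw [e3, e4] at h5
      exact η.trans (η.trans h1 h5) (RR.symm h3)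

/-- **JMA** -/
theorem jma (hG : MWGP.GapStmt) : JmaStmt := by
  intro n η hB hA p w r a ha hw
  induction w generalizing p with
  | nil => exact gp1 hG hB p r a ha
  | cons c w0 ih =>
    obtain ⟨k, rfl⟩ : ∃ k, n = k + 1 := ⟨n - 1, by have := hB.pos; omega⟩
    have hc : 2 ≤ (p ++ a :: c :: (w0 ++ r)).count c := by
      have := hw c (by simp)
      simpa using this
    have hc' : 2 ≤ (p ++ a :: c :: (w0 ++ (List.replicate (k + 1) a ++ r))).count c := by
      simp only [List.count_append, List.count_cons] at hc ⊢
      omega
    have h1 := step hG hB hA p (w0 ++ r) a c ha hc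
    have h3 := step hG hB hA p (w0 ++ (List.replicate (k + 1) a ++ r)) a c ha hc'
    have h2 := ih (p ++ a :: c :: List.replicate k a) (by simp) (by
      intro z hz
      have h := hw z (List.mem_cons_of_mem _ hz)
      simp only [List.count_append, List.count_cons, List.cons_append] at h ⊢
      omega)
    have e : ∀ s : List ℕ, p ++ a :: c :: List.replicate k a ++ a :: s =
        p ++ a :: c :: (List.replicate (k + 1) a ++ s) := by
      intro s
      rw [List.replicate_succ']
      simp
    rw [e, e] at h2
    exact η.trans (η.trans h1 h2) (RR.symm h3)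

end Pool.Agent.MWGR.H63
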